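import Pool.Agent.V11279.BesV

/-!
# Besicovitch cylindrical transformations of class `C^(d-1)` over minimal rotations of `𝕋^d`
-/

set_option autoImplicit false

open Filter Set Topology

namespace Pool.Agent.Results.MP_3d11e1_an.FiniteSmoothness

open Pool.Agent.V11279.BesT

/-- For every `d = r + 1 ≥ 1` there are a minimal rotation `x ↦ x + a` of the torus `𝕋^d` and a
function `φ : 𝕋^d → ℝ` of class `C^r = C^(d-1)` such that the cylindrical transformation
`T_φ (x, t) = (x + a, t + φ x)` is Besicovitch: it has a dense orbit, and it has an orbit without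
accumulation points; in fact the Birkhoff sums `φ^(n)(0)` tend to `+∞` as `|n| → ∞`. -/
theorem result (r : ℕ) : ∃ (a : Fin (r + 1) → UnitAddCircle)
    (φ : (Fin (r + 1) → UnitAddCircle) → ℝ),
    (∀ x : Fin (r + 1) → UnitAddCircle, Dense (Set.range fun n : ℤ => x + n • a)) ∧
    ContDiff ℝ r (fun p : Fin (r + 1) → ℝ => φ (fun i => (p i : UnitAddCircle))) ∧
    (∃ p, Dense (orbit a φ p)) ∧
    (∃ p, ∀ z, ¬ AccPt z (𝓟 (orbit a φ p))) ∧
    Tendsto (fun n : ℤ => (((cyl a φ) ^ n) (0, 0)).2) cofinite atTop := by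
  refine ⟨Pool.Agent.V11279.BesV.a r, Pool.Agent.V11279.BesV.φ r, ?_, ?_,
    (Pool.Agent.V11279.BesV.isBesicovitch r).exists_dense_orbit,
    (Pool.Agent.V11279.BesV.isBesicovitch r).exists_discrete_orbit,
    Pool.Agent.V11279.BesV.tendsto_S r⟩
  · intro x
    have h := (Pool.Agent.V11279.BesV.denseRange r)
    have h2 : DenseRange (fun n : ℤ => x + n • Pool.Agent.V11279.BesV.a r) :=
      (Homeomorph.addLeft x).surjective.denseRange.comp h (Homeomorph.addLeft x).continuous
    exact h2
  · exact Pool.Agent.V11279.BesV.contDiff_φ r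

end Pool.Agent.Results.MP_3d11e1_an.FiniteSmoothness
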